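import Mathlib

set_option autoImplicit false

/-!
# Lie powers as modules for subgroups of `GL(V)`: definitions
-/

namespace Q2.LP

open TensorAlgebra

section defs
variable (F : Type) [Field F] (V : Type) [AddCommGroup V] [Module F V]

/-- the action of an invertible linear map on the tensor algebra, by algebra endomorphisms -/
def tmap (g : V ≃ₗ[F] V) : TensorAlgebra F V →ₐ[F] TensorAlgebra F V :=
  TensorAlgebra.lift F ((TensorAlgebra.ι F) ∘ₗ g.toLinearMap)

/-- bracket (commutator) with a vector `w` of `V` on the right: `u ↦ [u, w] = u w - w u` -/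
def brk (u : TensorAlgebra F V) (w : V) : TensorAlgebra F V :=
  u * TensorAlgebra.ι F w - TensorAlgebra.ι F w * u

/-- the left normed bracket `[v, w_1, ..., w_m] = [...[[v, w_1], w_2], ..., w_m]` -/
def lbr (v : V) (l : List V) : TensorAlgebra F V := l.foldl (brk F V) (TensorAlgebra.ι F v)

/-- the `n`-th Lie power: span of all brackets `[v_1, ..., v_n]` -/
def liePow (n : ℕ) : Submodule F (TensorAlgebra F V) :=
  Submodule.span F {x | ∃ (v : V) (l : List V), l.length + 1 = n ∧ x = lbr F V v l}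

/-- `U` is stable under the subgroup `K` of `GL(V)` -/
def Stable (K : Subgroup (V ≃ₗ[F] V)) (U : Submodule F (TensorAlgebra F V)) : Prop :=
  ∀ g ∈ K, ∀ u ∈ U, tmap F V g u ∈ U

/-- `U` is an irreducible `FK`-submodule -/
def IrrSub (K : Subgroup (V ≃ₗ[F] V)) (U : Submodule F (TensorAlgebra F V)) : Prop :=
  Stable F V K U ∧ U ≠ ⊥ ∧ ∀ W, W ≤ U → Stable F V K W → W = ⊥ ∨ W = U

/-- condition `(*_n)` for the subgroup `H` -/
def Star (H : Subgroup (V ≃ₗ[F] V)) (n : ℕ) : Prop :=
  ∀ k, 1 ≤ k → k + 1 ≤ n → ∀ U, U ≤ liePow F V k → IrrSub F V ⊤ U → IrrSub F V H U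

/-- `U` is uniserial as `FK`-module: its submodules form a chain -/
def Uniserial (K : Subgroup (V ≃ₗ[F] V)) (U : Submodule F (TensorAlgebra F V)) : Prop :=
  ∀ A B, A ≤ U → B ≤ U → Stable F V K A → Stable F V K B → A ≤ B ∨ B ≤ A

/-- `U` is completely reducible as `FK`-module: a direct sum of irreducible submodules -/
def ComplRed (K : Subgroup (V ≃ₗ[F] V)) (U : Submodule F (TensorAlgebra F V)) : Prop :=
  ∃ (J : Type) (W : J → Submodule F (TensorAlgebra F V)),
    (∀ j, IrrSub F V K (W j)) ∧ iSupIndep W ∧ iSup W = U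

end defs

section lemmas
variable {F : Type} [Field F] {V : Type} [AddCommGroup V] [Module F V]

/-- `adr z u = u z - z u` as linear map in `u` -/
def adr (z : TensorAlgebra F V) : TensorAlgebra F V →ₗ[F] TensorAlgebra F V :=
  LinearMap.mulRight F z - LinearMap.mulLeft F z

theorem adr_apply (z u : TensorAlgebra F V) : adr z u = u * z - z * u := rfl

theorem brk_eq (u : TensorAlgebra F V) (w : V) : brk F V u w = adr (ι F w) u := rfl

theorem tmap_adr (g : V ≃ₗ[F] V) (z u : TensorAlgebra F V) :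
    tmap F V g (adr z u) = adr (tmap F V g z) (tmap F V g u) := by
  rw [adr_apply, adr_apply, map_sub, map_mul, map_mul]

theorem adr_add (z z' u : TensorAlgebra F V) : adr (z + z') u = adr z u + adr z' u := by
  rw [adr_apply, adr_apply, adr_apply]; noncomm_ring

theorem adr_smul (r : F) (z u : TensorAlgebra F V) : adr (r • z) u = r • adr z u := by
  rw [adr_apply, adr_apply, smul_sub, mul_smul_comm, smul_mul_assoc]

theorem tmap_ι (g : V ≃ₗ[F] V) (v : V) : tmap F V g (ι F v) = ι F (g v) := by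
  simp [tmap]

theorem tmap_mul (g h : V ≃ₗ[F] V) (u : TensorAlgebra F V) :
    tmap F V (g * h) u = tmap F V g (tmap F V h u) := by
  have : tmap F V (g * h) = (tmap F V g).comp (tmap F V h) := by
    apply TensorAlgebra.hom_ext
    ext v
    simp [tmap]
  rw [this]; rfl

theorem brk_mem {n : ℕ} {u : TensorAlgebra F V} (hu : u ∈ liePow F V (n + 1)) (w : V) :
    adr (ι F w) u ∈ liePow F V (n + 2) := by
  unfold liePow at hu
  induction hu using Submodule.span_induction with
  | mem x hx =>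
    obtain ⟨v, l, hl, rfl⟩ := hx
    apply Submodule.subset_span
    refine ⟨v, l ++ [w], ?_, ?_⟩
    · simp only [List.length_append, List.length_singleton]
      omega
    · unfold lbr
      rw [List.foldl_append]
      rfl
  | zero => rw [map_zero]; exact zero_mem _
  | add x y _ _ hx hy => rw [map_add]; exact add_mem hx hy
  | smul r x _ hx => rw [map_smul]; exact Submodule.smul_mem _ _ hx

theorem ι_mem (v : V) : ι F v ∈ liePow F V 1 :=
  Submodule.subset_span ⟨v, [], rfl, rfl⟩

theorem liePow_one_le {M : Submodule F (TensorAlgebra F V)} (h : ∀ v, ι F v ∈ M) :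
    liePow F V 1 ≤ M := by
  apply Submodule.span_le.2
  rintro x ⟨v, l, hl, rfl⟩
  have : l = [] := by
    rw [← List.length_eq_zero_iff]; omega
  subst this
  exact h v

theorem liePow_succ_le {n : ℕ} {M : Submodule F (TensorAlgebra F V)}
    (h : ∀ w, ∀ u ∈ liePow F V (n + 1), adr (ι F w) u ∈ M) :
    liePow F V (n + 2) ≤ M := by
  apply Submodule.span_le.2
  rintro x ⟨v, l, hl, rfl⟩
  have hne : l ≠ [] := by
    rintro rfl
    simp at hl
  obtain ⟨l', w, rfl⟩ : ∃ l' w, l = l' ++ [w] :=
    ⟨l.dropLast, l.getLast hne, (List.dropLast_append_getLast hne).symm⟩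
  unfold lbr
  rw [List.foldl_append]
  apply h w
  apply Submodule.subset_span
  refine ⟨v, l', ?_, rfl⟩
  simp only [List.length_append, List.length_singleton] at hl
  omega

theorem Stable.mono {K K' : Subgroup (V ≃ₗ[F] V)} (h : K ≤ K') {U : Submodule F (TensorAlgebra F V)}
    (hU : Stable F V K' U) : Stable F V K U := fun g hg u hu => hU g (h hg) u hu

theorem Stable.sup {K : Subgroup (V ≃ₗ[F] V)} {A B : Submodule F (TensorAlgebra F V)}
    (hA : Stable F V K A) (hB : Stable F V K B) : Stable F V K (A ⊔ B) := by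
  intro g hg u hu
  obtain ⟨a, ha, b, hb, rfl⟩ := Submodule.mem_sup.1 hu
  rw [map_add]
  exact add_mem (Submodule.mem_sup_left (hA g hg a ha)) (Submodule.mem_sup_right (hB g hg b hb))

theorem Stable.inf {K : Subgroup (V ≃ₗ[F] V)} {A B : Submodule F (TensorAlgebra F V)}
    (hA : Stable F V K A) (hB : Stable F V K B) : Stable F V K (A ⊓ B) :=
  fun g hg u hu => ⟨hA g hg u hu.1, hB g hg u hu.2⟩

/-- In a completely reducible module every submodule has a complement. -/
theorem exists_compl {K : Subgroup (V ≃ₗ[F] V)} {U : Submodule F (TensorAlgebra F V)}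
    (h : ComplRed F V K U) (S : Submodule F (TensorAlgebra F V)) (hS : Stable F V K S) :
    ∃ C, Stable F V K C ∧ C ≤ U ∧ C ⊓ S = ⊥ ∧ U ≤ C ⊔ S := by
  obtain ⟨J, W, hW, -, hWU⟩ := h
  obtain ⟨C, -, hC⟩ := zorn_le_nonempty₀
    {C : Submodule F (TensorAlgebra F V) | Stable F V K C ∧ C ≤ U ∧ C ⊓ S = ⊥} (by
      intro c hc hch y hy
      refine ⟨sSup c, ⟨?_, ?_, ?_⟩, fun z hz => le_sSup hz⟩
      · intro g hg u hu
        rw [Submodule.mem_sSup_of_directed ⟨y, hy⟩ hch.directedOn] at hu ⊢
        obtain ⟨z, hz, huz⟩ := hu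
        exact ⟨z, hz, (hc hz).1 g hg u huz⟩
      · exact sSup_le fun z hz => (hc hz).2.1
      · rw [eq_bot_iff]
        rintro u ⟨hu, huS⟩
        rw [SetLike.mem_coe, Submodule.mem_sSup_of_directed ⟨y, hy⟩ hch.directedOn] at hu
        obtain ⟨z, hz, huz⟩ := hu
        rw [← (hc hz).2.2]
        exact ⟨huz, huS⟩) ⊥ ⟨by
          intro g hg u hu
          rw [Submodule.mem_bot] at hu ⊢
          rw [hu, map_zero], bot_le, bot_inf_eq _⟩
  refine ⟨C, hC.prop.1, hC.prop.2.1, hC.prop.2.2, ?_⟩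
  rw [← hWU]
  apply iSup_le
  intro j
  by_contra hj
  -- `W j` meets `C ⊔ S` trivially
  have h1 : W j ⊓ (C ⊔ S) = ⊥ := by
    rcases (hW j).2.2 (W j ⊓ (C ⊔ S)) inf_le_left ((hW j).1.inf (hC.prop.1.sup hS)) with h2 | h2
    · exact h2
    · exact absurd (inf_eq_left.1 h2) hj
  have h2 : C ⊔ W j ∈ {C : Submodule F (TensorAlgebra F V) | Stable F V K C ∧ C ≤ U ∧ C ⊓ S = ⊥} := by
    refine ⟨hC.prop.1.sup (hW j).1, sup_le hC.prop.2.1 (by rw [← hWU]; exact le_iSup W j), ?_⟩
    rw [eq_bot_iff]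
    rintro u ⟨hu, huS⟩
    obtain ⟨a, ha, b, hb, rfl⟩ := Submodule.mem_sup.1 hu
    have hb' : b ∈ W j ⊓ (C ⊔ S) := by
      refine ⟨hb, ?_⟩
      have : b = -a + (a + b) := by abel
      rw [this]
      exact add_mem (Submodule.mem_sup_left (neg_mem ha)) (Submodule.mem_sup_right huS)
    rw [h1, Submodule.mem_bot] at hb'
    subst hb'
    rw [add_zero] at huS ⊢
    rw [← hC.prop.2.2]
    exact ⟨ha, huS⟩
  have h3 : C ⊔ W j ≤ C := hC.le_of_ge h2 le_sup_left
  have h4 : W j ≤ C ⊔ S := (le_sup_right.trans h3).trans le_sup_left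
  exact hj h4

/-- separation of three eigencomponents -/
theorem sep {ω : F} (hω : ω ^ 2 + ω + 1 = 0) [CharP F 2]
    (T : TensorAlgebra F V →ₗ[F] TensorAlgebra F V) {U : Submodule F (TensorAlgebra F V)}
    (hU : ∀ u ∈ U, T u ∈ U) {p q r : TensorAlgebra F V} (hp : T p = p) (hq : T q = ω • q)
    (hr : T r = ω ^ 2 • r) (hu : p + q + r ∈ U) : p ∈ U ∧ q ∈ U ∧ r ∈ U := by
  have h2 : (1 : F) + 1 = 0 := CharTwo.add_self_eq_zero 1
  have h3 : ω ^ 3 = 1 := by linear_combination (ω - 1) * hω
  have hu1 : T (p + q + r) ∈ U := hU _ hu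
  have hu2 : T (T (p + q + r)) ∈ U := hU _ hu1
  have e1 : T (p + q + r) = p + ω • q + ω ^ 2 • r := by rw [map_add, map_add, hp, hq, hr]
  have e2 : T (T (p + q + r)) = p + ω ^ 2 • q + ω • r := by
    rw [e1, map_add, map_add, map_smul, map_smul, hp, hq, hr, smul_smul, smul_smul]
    have : ω ^ 2 * ω ^ 2 = ω := by linear_combination ω * h3
    rw [this, ← pow_two]
  rw [e1] at hu1
  rw [e2] at hu2
  refine ⟨?_, ?_, ?_⟩
  · have h4 := add_mem (add_mem hu hu1) hu2
    convert h4 using 1
    match_scalars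
    · linear_combination -h2
    · linear_combination -hω
    · linear_combination -hω
  · have h4 := add_mem (add_mem hu (U.smul_mem (ω ^ 2) hu1)) (U.smul_mem ω hu2)
    convert h4 using 1
    match_scalars
    · linear_combination -h2 - 2 * h3
    · linear_combination -hω
    · linear_combination -hω - ω * h3
  · have h4 := add_mem (add_mem hu (U.smul_mem ω hu1)) (U.smul_mem (ω ^ 2) hu2)
    convert h4 using 1
    match_scalars
    · linear_combination -h2 - 2 * h3
    · linear_combination -hω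
    · linear_combination -hω - ω * h3

end lemmas

end Q2.LP
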