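import Pool.Agent.Q2.LP.Main

set_option autoImplicit false
set_option linter.unusedSectionVars false

/-!
# The fifth Lie power of the plane over the field of four elements: submodules
-/

namespace Q2.LP

open TensorAlgebra

section gen
variable {F : Type} [Field F]

/-- test representation -/
def phi : TensorAlgebra F (Pl F) →ₐ[F] Matrix (Fin 3) (Fin 3) F :=
  TensorAlgebra.lift F
    { toFun := fun v => !![v 0, v 1, 0; 0, 0, v 1; 0, 0, 0]
      map_add' := by
        intro u v
        ext i j; fin_cases i <;> fin_cases j <;> simp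
      map_smul' := by
        intro r v
        ext i j; fin_cases i <;> fin_cases j <;> simp }

theorem phi_xx : phi (xx : TensorAlgebra F (Pl F)) = !![1, 0, 0; 0, 0, 0; 0, 0, 0] := by
  unfold phi xx
  rw [TensorAlgebra.lift_ι_apply]
  simp [e0]

theorem phi_yy : phi (yy : TensorAlgebra F (Pl F)) = !![0, 1, 0; 0, 0, 1; 0, 0, 0] := by
  unfold phi yy
  rw [TensorAlgebra.lift_ι_apply]
  simp [e1]

theorem phi_fX (u : TensorAlgebra F (Pl F)) : phi (fX u) =
    phi u * !![1, 0, 0; 0, 0, 0; 0, 0, 0] - !![1, 0, 0; 0, 0, 0; 0, 0, 0] * phi u := by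
  rw [fX_eq, map_sub, map_mul, map_mul, phi_xx]

theorem phi_fY (u : TensorAlgebra F (Pl F)) : phi (fY u) =
    phi u * !![0, 1, 0; 0, 0, 1; 0, 0, 0] - !![0, 1, 0; 0, 0, 1; 0, 0, 0] * phi u := by
  rw [fY_eq, map_sub, map_mul, map_mul, phi_yy]

theorem phi_cc : phi (cc : TensorAlgebra F (Pl F)) = !![0, 1, 0; 0, 0, 0; 0, 0, 0] := by
  unfold cc
  rw [phi_fY, phi_xx]
  ext i j; fin_cases i <;> fin_cases j <;> simp

theorem phi_P4 : phi (P4 : TensorAlgebra F (Pl F)) = !![0, 1, 0; 0, 0, 0; 0, 0, 0] := by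
  unfold P4
  rw [phi_fX, phi_fX, phi_cc]
  ext i j; fin_cases i <;> fin_cases j <;> simp

theorem phi_R4 : phi (R4 : TensorAlgebra F (Pl F)) = 0 := by
  unfold R4
  rw [phi_fY, phi_fY, phi_cc]
  ext i j; fin_cases i <;> fin_cases j <;> simp

theorem phi_AA : phi (AA : TensorAlgebra F (Pl F)) = !![0, -1, 0; 0, 0, 0; 0, 0, 0] := by
  unfold AA
  rw [phi_fX, phi_P4]
  ext i j; fin_cases i <;> fin_cases j <;> simp

theorem phi_BB : phi (BB : TensorAlgebra F (Pl F)) = !![0, 0, 1; 0, 0, 0; 0, 0, 0] := by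
  unfold BB
  rw [phi_fY, phi_P4]
  ext i j; fin_cases i <;> fin_cases j <;> simp

theorem phi_CC : phi (CC : TensorAlgebra F (Pl F)) = 0 := by
  unfold CC
  rw [phi_fX, phi_R4]; simp

theorem phi_DD : phi (DD : TensorAlgebra F (Pl F)) = 0 := by
  unfold DD
  rw [phi_fY, phi_R4]; simp

theorem P4_ne : (P4 : TensorAlgebra F (Pl F)) ≠ 0 := by
  intro h
  have := phi_P4 (F := F)
  rw [h, map_zero] at this
  have := congrFun (congrFun this 0) 1
  simp at this

/-- `A + D ≠ 0` and it is not in the span of `B, C` -/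
theorem AD_not_mem : (AA + DD : TensorAlgebra F (Pl F)) ∉ Submodule.span F {BB, CC} := by
  intro h
  obtain ⟨r, s, hrs⟩ := Submodule.mem_span_pair.1 h
  have := congrArg phi hrs
  rw [map_add, map_add, map_smul, map_smul, phi_BB, phi_CC, phi_AA, phi_DD] at this
  have := congrFun (congrFun this 0) 1
  simp at this

theorem BB_not_mem : (BB : TensorAlgebra F (Pl F)) ∉ Submodule.span F {AA, DD} := by
  intro h
  obtain ⟨r, s, hrs⟩ := Submodule.mem_span_pair.1 h
  have := congrArg phi hrs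
  rw [map_add, map_smul, map_smul, phi_BB, phi_AA, phi_DD] at this
  have := congrFun (congrFun this 0) 2
  simp at this

theorem BB_not_mem' : (BB : TensorAlgebra F (Pl F)) ∉ Submodule.span F {AA + DD} := by
  intro h
  obtain ⟨r, hrs⟩ := Submodule.mem_span_singleton.1 h
  have := congrArg phi hrs
  rw [map_smul, map_add, phi_BB, phi_AA, phi_DD] at this
  have := congrFun (congrFun this 0) 2
  simp at this

theorem AD_ne : (AA + DD : TensorAlgebra F (Pl F)) ≠ 0 := by
  intro h
  exact AD_not_mem (by rw [h]; exact zero_mem _)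

theorem AA_ne : (AA : TensorAlgebra F (Pl F)) ≠ 0 := by
  intro h
  have := phi_AA (F := F)
  rw [h, map_zero] at this
  have := congrFun (congrFun this 0) 1
  simp at this

/-! ### membership in the Lie powers -/

theorem fX_mem {n : ℕ} {u : TensorAlgebra F (Pl F)} (hu : u ∈ liePow F (Pl F) (n + 1)) :
    fX u ∈ liePow F (Pl F) (n + 2) := brk_mem hu e0

theorem fY_mem {n : ℕ} {u : TensorAlgebra F (Pl F)} (hu : u ∈ liePow F (Pl F) (n + 1)) :
    fY u ∈ liePow F (Pl F) (n + 2) := brk_mem hu e1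

theorem cc_mem : cc ∈ liePow F (Pl F) 2 := fY_mem (ι_mem e0)
theorem P4_mem : P4 ∈ liePow F (Pl F) 4 := fX_mem (fX_mem cc_mem)
theorem R4_mem : R4 ∈ liePow F (Pl F) 4 := fY_mem (fY_mem cc_mem)
theorem AA_mem : AA ∈ liePow F (Pl F) 5 := fX_mem P4_mem
theorem BB_mem : BB ∈ liePow F (Pl F) 5 := fY_mem P4_mem
theorem CC_mem : CC ∈ liePow F (Pl F) 5 := fX_mem R4_mem
theorem DD_mem : DD ∈ liePow F (Pl F) 5 := fY_mem R4_mem

theorem L1_le : liePow F (Pl F) 1 ≤ Submodule.span F {xx, yy} := by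
  apply liePow_one_le
  intro v
  rw [ι_pl]
  exact Submodule.mem_span_pair.2 ⟨_, _, rfl⟩

theorem lie_step {n : ℕ} {s : Set (TensorAlgebra F (Pl F))} {M : Submodule F (TensorAlgebra F (Pl F))}
    (h : liePow F (Pl F) (n + 1) ≤ Submodule.span F s)
    (hX : ∀ u ∈ s, fX u ∈ M) (hY : ∀ u ∈ s, fY u ∈ M) : liePow F (Pl F) (n + 2) ≤ M := by
  apply liePow_succ_le
  intro w u hu
  have hu' := h hu
  clear hu
  induction hu' using Submodule.span_induction with
  | mem x hx =>
    rw [adr_ι]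
    exact add_mem (M.smul_mem _ (hX x hx)) (M.smul_mem _ (hY x hx))
  | zero => rw [map_zero]; exact zero_mem _
  | add x y _ _ hx hy => rw [map_add]; exact add_mem hx hy
  | smul r x _ hx => rw [map_smul]; exact Submodule.smul_mem _ _ hx

theorem L2_le : liePow F (Pl F) 2 ≤ Submodule.span F {cc} := by
  apply lie_step L1_le
  · rintro u (rfl | rfl)
    · rw [fX_xx]; exact zero_mem _
    · rw [fX_yy]; exact neg_mem (Submodule.mem_span_singleton_self _)
  · rintro u (rfl | rfl)
    · exact Submodule.mem_span_singleton_self _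
    · rw [fY_yy]; exact zero_mem _

theorem L3_le : liePow F (Pl F) 3 ≤ Submodule.span F {fX cc, fY cc} := by
  apply lie_step L2_le
  · rintro u rfl
    exact Submodule.subset_span (by simp)
  · rintro u rfl
    exact Submodule.subset_span (by simp)

theorem L4_le : liePow F (Pl F) 4 ≤ Submodule.span F {P4, Q4, R4} := by
  apply lie_step L3_le
  · rintro u (rfl | rfl)
    · exact Submodule.subset_span (by unfold P4; simp)
    · exact Submodule.subset_span (by unfold Q4; simp)
  · rintro u (rfl | rfl)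
    · rw [f_comm]; exact Submodule.subset_span (by unfold Q4; simp)
    · exact Submodule.subset_span (by unfold R4; simp)

/-! ### irreducible submodules -/

/-- minimality principle -/
theorem irr_of_min {H : Subgroup (Pl F ≃ₗ[F] Pl F)} {M : Submodule F (TensorAlgebra F (Pl F))}
    (hM : ∀ U, U ≤ M → Stable F (Pl F) H U → U ≠ ⊥ → M ≤ U) (U : Submodule F (TensorAlgebra F (Pl F)))
    (hU : U ≤ M) (h : IrrSub F (Pl F) ⊤ U) : IrrSub F (Pl F) H U := by
  refine ⟨h.1.mono le_top, h.2.1, ?_⟩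
  intro W hW hs
  by_cases h0 : W = ⊥
  · exact Or.inl h0
  · exact Or.inr (le_antisymm hW (hU.trans (hM W (hW.trans hU) hs h0)))

/-- two dimensional spaces whose two basis vectors have different weights and are swapped -/
theorem min_two (p q : TensorAlgebra F (Pl F))
    (hT : ∀ U : Submodule F (TensorAlgebra F (Pl F)), Stable F (Pl F) (Mono F) U →
      ∀ r s : F, r • p + s • q ∈ U → r • p ∈ U ∧ s • q ∈ U)
    (hp : ∀ h, tm 0 1 1 0 h p = q) (hq : ∀ h, tm 0 1 1 0 h q = p)
    (U : Submodule F (TensorAlgebra F (Pl F))) (hU : U ≤ Submodule.span F {p, q})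
    (hs : Stable F (Pl F) (Mono F) U) (h0 : U ≠ ⊥) : Submodule.span F {p, q} ≤ U := by
  have hsw : (0 : F) * 0 - 1 * 1 ≠ 0 := by simp
  obtain ⟨u, hu, hu0⟩ := Submodule.exists_mem_ne_zero_of_ne_bot h0
  obtain ⟨r, s, hrs⟩ := Submodule.mem_span_pair.1 (hU hu)
  rw [← hrs] at hu hu0
  obtain ⟨h1, h2⟩ := hT U hs r s hu
  have key : p ∈ U ∧ q ∈ U := by
    by_cases hr : r = 0
    · have hs0 : s ≠ 0 := by
        rintro rfl
        apply hu0
        rw [hr, zero_smul, zero_smul, add_zero]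
      have h3 : q ∈ U := (Submodule.smul_mem_iff _ hs0).1 h2
      refine ⟨?_, h3⟩
      rw [← hq hsw]
      exact stable_sw hs hsw h3
    · have h3 : p ∈ U := (Submodule.smul_mem_iff _ hr).1 h1
      refine ⟨h3, ?_⟩
      rw [← hp hsw]
      exact stable_sw hs hsw h3
  rw [Submodule.span_le]
  rintro z (rfl | rfl)
  · exact key.1
  · exact key.2

section sepT
variable {ω : F} (hω : ω ^ 2 + ω + 1 = 0) [CharP F 2]

include hω

theorem ω_ne : ω * 1 - 0 * 0 ≠ 0 := by
  intro h
  have : ω = 0 := by simpa using h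
  rw [this] at hω
  simp at hω

/-- separation for stable subspaces -/
theorem sepT {U : Submodule F (TensorAlgebra F (Pl F))} (hU : Stable F (Pl F) (Mono F) U)
    {p q r : TensorAlgebra F (Pl F)} (hp : tm ω 0 0 1 (ω_ne hω) p = p)
    (hq : tm ω 0 0 1 (ω_ne hω) q = ω • q) (hr : tm ω 0 0 1 (ω_ne hω) r = ω ^ 2 • r)
    (hu : p + q + r ∈ U) : p ∈ U ∧ q ∈ U ∧ r ∈ U := by
  have hT : ∀ u ∈ U, (tmap F (Pl F) (mkE ω 0 0 1 (ω_ne hω))).toLinearMap u ∈ U :=
    fun u hu => stable_tm hU ω 1 (ω_ne hω) hu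
  exact sep hω (tmap F (Pl F) (mkE ω 0 0 1 (ω_ne hω))).toLinearMap hT hp hq hr hu

theorem ω3 : ω * ω * ω = 1 := by linear_combination (ω - 1) * hω

theorem sw_cc (h : (0 : F) * 0 - 1 * 1 ≠ 0) : tm 0 1 1 0 h cc = (cc : TensorAlgebra F (Pl F)) := by
  have h2 : (1 : F) + 1 = 0 := CharTwo.add_self_eq_zero 1
  rw [tm_c]
  have : (0 : F) * 0 - 1 * 1 = 1 := by linear_combination -h2
  rw [this, one_smul]

theorem sw_det : (0 : F) * 0 - 1 * 1 = 1 := by
  have h2 : (1 : F) + 1 = 0 := CharTwo.add_self_eq_zero 1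
  linear_combination -h2

theorem case1 (U : Submodule F (TensorAlgebra F (Pl F))) (hU : U ≤ liePow F (Pl F) 1)
    (h : IrrSub F (Pl F) ⊤ U) : IrrSub F (Pl F) (Mono F) U := by
  refine irr_of_min (min_two xx yy ?_ ?_ ?_) U (hU.trans L1_le) h
  · intro U hU r s hu
    have h1 : s • yy + r • xx + (0 : TensorAlgebra F (Pl F)) ∈ U := by
      rw [add_zero, add_comm]; exact hu
    obtain ⟨h2, h3, -⟩ := sepT hω hU (by rw [tm_smul, tm_y, zero_smul, zero_add, one_smul])
      (by rw [tm_smul, tm_x, zero_smul, add_zero, smul_comm]) (by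
        rw [smul_zero]; exact map_zero (tmap F (Pl F) (mkE ω 0 0 1 (ω_ne hω)))) h1
    exact ⟨h3, h2⟩
  · intro h; rw [tm_x, zero_smul, zero_add, one_smul]
  · intro h; rw [tm_y, zero_smul, add_zero, one_smul]

theorem case2 (U : Submodule F (TensorAlgebra F (Pl F))) (hU : U ≤ liePow F (Pl F) 2)
    (h : IrrSub F (Pl F) ⊤ U) : IrrSub F (Pl F) (Mono F) U := by
  refine irr_of_min ?_ U (hU.trans L2_le) h
  intro U hU _ h0
  obtain ⟨u, hu, hu0⟩ := Submodule.exists_mem_ne_zero_of_ne_bot h0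
  obtain ⟨r, hr⟩ := Submodule.mem_span_singleton.1 (hU hu)
  rw [← hr] at hu hu0
  have hr0 : r ≠ 0 := by rintro rfl; simp at hu0
  rw [Submodule.span_singleton_le_iff_mem]
  exact (Submodule.smul_mem_iff _ hr0).1 hu

theorem case3 (U : Submodule F (TensorAlgebra F (Pl F))) (hU : U ≤ liePow F (Pl F) 3)
    (h : IrrSub F (Pl F) ⊤ U) : IrrSub F (Pl F) (Mono F) U := by
  have h3 := ω3 hω
  refine irr_of_min (min_two (fX cc) (fY cc) ?_ ?_ ?_) U (hU.trans L3_le) h
  · intro U hU r s hu
    have h1 : (0 : TensorAlgebra F (Pl F)) + s • fY cc + r • fX cc ∈ U := by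
      rw [zero_add, add_comm]; exact hu
    obtain ⟨-, h2, h3⟩ := sepT hω hU (map_zero (tmap F (Pl F) (mkE ω 0 0 1 (ω_ne hω))))
      (by rw [tm_smul, tm_yc]; module)
      (by rw [tm_smul, tm_xc]; module) h1
    exact ⟨h3, h2⟩
  · intro h; rw [tm_xc, sw_det hω]; module
  · intro h; rw [tm_yc, sw_det hω]; module

/-- the `GL`-submodule of `L^4` spanned by `[c,x,x]` and `[c,y,y]` -/
theorem W4_stable : Stable F (Pl F) ⊤ (Submodule.span F {P4, R4}) := by
  apply stable_span
  intro g _ u hu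
  rw [eq_mkE g]
  rcases hu with rfl | rfl
  · change tm _ _ _ _ _ _ ∈ _
    rw [tm_P4]
    exact Submodule.smul_mem _ _ (Submodule.mem_span_pair.2 ⟨_, _, rfl⟩)
  · change tm _ _ _ _ _ _ ∈ _
    rw [tm_R4]
    exact Submodule.smul_mem _ _ (Submodule.mem_span_pair.2 ⟨_, _, rfl⟩)

theorem W4_min (U : Submodule F (TensorAlgebra F (Pl F))) (hU : U ≤ Submodule.span F {P4, R4})
    (hs : Stable F (Pl F) (Mono F) U) (h0 : U ≠ ⊥) : Submodule.span F {P4, R4} ≤ U := by
  have h3 := ω3 hω
  refine min_two P4 R4 ?_ ?_ ?_ U hU hs h0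
  · intro U hU r s hu
    have h1 : r • P4 + s • R4 + (0 : TensorAlgebra F (Pl F)) ∈ U := by
      rw [add_zero]; exact hu
    obtain ⟨h2, h3, -⟩ := sepT hω hU
      (by
        rw [tm_smul, tm_P4]
        match_scalars
        · linear_combination r * h3
        · ring)
      (by rw [tm_smul, tm_R4]; module)
      (by rw [smul_zero]; exact map_zero (tmap F (Pl F) (mkE ω 0 0 1 (ω_ne hω)))) h1
    exact ⟨h2, h3⟩
  · intro h; rw [tm_P4, sw_det hω]; module
  · intro h; rw [tm_R4, sw_det hω]; module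

theorem case4 (U : Submodule F (TensorAlgebra F (Pl F))) (hU : U ≤ liePow F (Pl F) 4)
    (h : IrrSub F (Pl F) ⊤ U) : IrrSub F (Pl F) (Mono F) U := by
  have h3 := ω3 hω
  have hsw : (0 : F) * 0 - 1 * 1 ≠ 0 := by simp
  have hsm : Stable F (Pl F) (Mono F) U := h.1.mono le_top
  -- `W ≤ U`
  have key : P4 ∈ U ∨ R4 ∈ U := by
    obtain ⟨u, hu, hu0⟩ := Submodule.exists_mem_ne_zero_of_ne_bot h.2.1
    obtain ⟨r, s, t, hrs⟩ := Submodule.mem_span_triple.1 (L4_le (hU hu))
    rw [← hrs] at hu hu0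
    have h1 : r • P4 + t • R4 + s • Q4 ∈ U := by
      convert hu using 1
      abel
    obtain ⟨h4, h5, h6⟩ := sepT hω hsm
      (by
        rw [tm_smul, tm_P4]
        match_scalars
        · linear_combination r * h3
        · ring)
      (by rw [tm_smul, tm_R4]; module)
      (by rw [tm_smul, tm_Q4]; module) h1
    by_cases hr : r = 0
    · by_cases ht : t = 0
      · have hs0 : s ≠ 0 := by
          rintro rfl
          apply hu0
          rw [hr, ht, zero_smul, zero_smul, zero_smul, add_zero, add_zero]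
        have h7 : Q4 ∈ U := (Submodule.smul_mem_iff _ hs0).1 h6
        have h8 : tm 1 0 1 1 (by simp) Q4 ∈ U := h.1 _ trivial _ h7
        rw [tm_Q4] at h8
        right
        have h9 := sub_mem h8 h7
        convert h9 using 1
        match_scalars
        · ring
        · ring
        · ring
      · right; exact (Submodule.smul_mem_iff _ ht).1 h5
    · left; exact (Submodule.smul_mem_iff _ hr).1 h4
  have key2 : P4 ∈ U ∧ R4 ∈ U := by
    rcases key with h4 | h4
    · refine ⟨h4, ?_⟩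
      have := stable_sw hsm hsw h4
      rw [tm_P4, sw_det hω] at this
      convert this using 1
      module
    · refine ⟨?_, h4⟩
      have := stable_sw hsm hsw h4
      rw [tm_R4, sw_det hω] at this
      convert this using 1
      module
  have hWU : Submodule.span F {P4, R4} ≤ U := by
    rw [Submodule.span_le]
    rintro z (rfl | rfl)
    · exact key2.1
    · exact key2.2
  have hW : U ≤ Submodule.span F {P4, R4} := by
    rcases h.2.2 _ hWU (W4_stable hω) with h5 | h5
    · exfalso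
      have : P4 ∈ (⊥ : Submodule F (TensorAlgebra F (Pl F))) := by
        rw [← h5]
        exact Submodule.subset_span (by simp)
      exact P4_ne ((Submodule.mem_bot F).1 this)
    · rw [h5]
  exact irr_of_min (W4_min hω) U hW h

end sepT

end gen

end Q2.LP
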