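import Pool.Agent.Q2.LP.Fin

set_option autoImplicit false
set_option linter.unusedSectionVars false

/-!
# The fifth Lie power of the plane over the field of four elements: degree five
-/

namespace Q2.LP

open TensorAlgebra

section gen
variable {F : Type} [Field F]

/-- the Steinberg submodule of `L^5` -/
def St : Submodule F (TensorAlgebra F (Pl F)) := Submodule.span F {AA, BB, CC, DD}

theorem mem_St {u : TensorAlgebra F (Pl F)} (h : u ∈ (St : Submodule F (TensorAlgebra F (Pl F)))) :
    ∃ r s t v : F, u = r • AA + s • BB + t • CC + v • DD := by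
  unfold St at h
  rw [Submodule.mem_span_insert] at h
  obtain ⟨r, z, hz, rfl⟩ := h
  obtain ⟨s, t, v, rfl⟩ := Submodule.mem_span_triple.1 hz
  exact ⟨r, s, t, v, by abel⟩

theorem St_mem (r s t v : F) : r • AA + s • BB + t • CC + v • DD ∈
    (St : Submodule F (TensorAlgebra F (Pl F))) := by
  have h : ∀ u ∈ ({AA, BB, CC, DD} : Set (TensorAlgebra F (Pl F))),
      u ∈ (St : Submodule F (TensorAlgebra F (Pl F))) := fun u hu => Submodule.subset_span hu
  exact add_mem (add_mem (add_mem (Submodule.smul_mem _ _ (h _ (by simp)))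
    (Submodule.smul_mem _ _ (h _ (by simp)))) (Submodule.smul_mem _ _ (h _ (by simp))))
    (Submodule.smul_mem _ _ (h _ (by simp)))

theorem St_le : (St : Submodule F (TensorAlgebra F (Pl F))) ≤ liePow F (Pl F) 5 := by
  unfold St
  rw [Submodule.span_le]
  rintro z (rfl | rfl | rfl | rfl)
  · exact AA_mem
  · exact BB_mem
  · exact CC_mem
  · exact DD_mem

section
variable {ω : F} (hω : ω ^ 2 + ω + 1 = 0) [CharP F 2]

include hω

theorem St_stable : Stable F (Pl F) ⊤ (St : Submodule F (TensorAlgebra F (Pl F))) := by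
  unfold St
  apply stable_span
  intro g _ u hu
  rw [eq_mkE g]
  change tm _ _ _ _ _ _ ∈ (St : Submodule F (TensorAlgebra F (Pl F)))
  rcases hu with rfl | rfl | rfl | rfl
  · rw [tm_A]; exact Submodule.smul_mem _ _ (St_mem _ _ _ _)
  · rw [tm_B]; exact Submodule.smul_mem _ _ (St_mem _ _ _ _)
  · rw [tm_C]; exact Submodule.smul_mem _ _ (St_mem _ _ _ _)
  · rw [tm_D]; exact Submodule.smul_mem _ _ (St_mem _ _ _ _)

/-- separation in `St` -/
theorem sepSt {U : Submodule F (TensorAlgebra F (Pl F))} (hU : Stable F (Pl F) (Mono F) U)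
    (r s t v : F) (h : r • AA + s • BB + t • CC + v • DD ∈ U) :
    s • BB ∈ U ∧ r • AA + v • DD ∈ U ∧ t • CC ∈ U := by
  have h3 := ω3 hω
  apply sepT hω hU
  · rw [tm_smul, tm_B]
    match_scalars
    · ring
    · linear_combination s * h3
    · ring
    · ring
  · rw [tm_add, tm_smul, tm_smul, tm_A, tm_D]
    match_scalars
    · linear_combination r * ω * h3
    · ring
    · ring
    · ring
  · rw [tm_smul, tm_C]
    module
  · convert h using 1
    abel

/-- the Steinberg submodule is irreducible for `GL` -/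
theorem St_irr : IrrSub F (Pl F) ⊤ (St : Submodule F (TensorAlgebra F (Pl F))) := by
  have hsw : (0 : F) * 0 - 1 * 1 ≠ 0 := by simp
  refine ⟨St_stable hω, ?_, ?_⟩
  · intro h
    have : AA ∈ (St : Submodule F (TensorAlgebra F (Pl F))) := Submodule.subset_span (by simp)
    rw [h] at this
    exact AA_ne ((Submodule.mem_bot F).1 this)
  intro U hU hs
  by_cases h0 : U = ⊥
  · exact Or.inl h0
  right
  have hsm : Stable F (Pl F) (Mono F) U := hs.mono le_top
  have swB : BB ∈ U → CC ∈ U := by
    intro h
    have := stable_sw hsm hsw h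
    rw [tm_B, sw_det hω] at this
    convert this using 1
    module
  have swC : CC ∈ U → BB ∈ U := by
    intro h
    have := stable_sw hsm hsw h
    rw [tm_C, sw_det hω] at this
    convert this using 1
    module
  have swD : DD ∈ U → AA ∈ U := by
    intro h
    have := stable_sw hsm hsw h
    rw [tm_D, sw_det hω] at this
    convert this using 1
    module
  have swA : AA ∈ U → DD ∈ U := by
    intro h
    have := stable_sw hsm hsw h
    rw [tm_A, sw_det hω] at this
    convert this using 1
    module
  -- from `B` we get everything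
  have fromB : BB ∈ U → U = St := by
    intro hB
    have h8 : tm 1 0 1 1 (by simp) BB ∈ U := hs _ trivial _ hB
    rw [tm_B] at h8
    have h9 := sub_mem h8 hB
    have hD : DD ∈ U := by
      convert h9 using 1
      module
    apply le_antisymm hU
    unfold St
    rw [Submodule.span_le]
    rintro z (rfl | rfl | rfl | rfl)
    · exact swD hD
    · exact hB
    · exact swB hB
    · exact hD
  -- from `A` we get `B`
  have fromA : AA ∈ U → U = St := by
    intro hA
    have h8 : tm 1 0 1 1 (by simp) AA ∈ U := hs _ trivial _ hA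
    rw [tm_A] at h8
    have h9 : (1 : F) • AA + (1 : F) • BB + (1 : F) • CC + (1 : F) • DD ∈ U := by
      convert h8 using 1
      module
    have := (sepSt hω hsm 1 1 1 1 h9).1
    rw [one_smul] at this
    exact fromB this
  obtain ⟨u, hu, hu0⟩ := Submodule.exists_mem_ne_zero_of_ne_bot h0
  obtain ⟨r, s, t, v, rfl⟩ := mem_St (hU hu)
  obtain ⟨h1, h2, h3⟩ := sepSt hω hsm r s t v hu
  by_cases hs0 : s = 0
  · by_cases ht : t = 0
    · by_cases hr : r = 0
      · have hv : v ≠ 0 := by
          rintro rfl
          apply hu0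
          rw [hs0, ht, hr, zero_smul, zero_smul, zero_smul, zero_smul, add_zero, add_zero, add_zero]
        rw [hr, zero_smul, zero_add] at h2
        exact fromA (swD ((Submodule.smul_mem_iff _ hv).1 h2))
      · -- apply the transvection
        have h8 : tm 1 0 1 1 (by simp) (r • AA + v • DD) ∈ U := hs _ trivial _ h2
        rw [tm_add, tm_smul, tm_smul, tm_A, tm_D] at h8
        have h9 : r • AA + r • BB + r • CC + (r + v) • DD ∈ U := by
          convert h8 using 1
          module
        have := (sepSt hω hsm _ _ _ _ h9).1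
        exact fromB ((Submodule.smul_mem_iff _ hr).1 this)
    · exact fromB (swC ((Submodule.smul_mem_iff _ ht).1 h3))
  · exact fromB ((Submodule.smul_mem_iff _ hs0).1 h1)

theorem AD_stable : Stable F (Pl F) (Mono F) (Submodule.span F {AA, DD}) := by
  apply stable_span
  intro g hg u hu
  have key : ∀ (a b c d : F) (h : a * d - b * c ≠ 0), mkE a b c d h ∈ Mono F →
      tm a b c d h u ∈ Submodule.span F {AA, DD} := by
    intro a b c d h hm
    rw [mem_Mono] at hm
    rcases hm with ⟨rfl, rfl⟩ | ⟨rfl, rfl⟩
    · rcases hu with rfl | rfl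
      · rw [tm_A]
        exact Submodule.mem_span_pair.2 ⟨(a * d - 0 * 0) * (a * a * a), 0, by module⟩
      · rw [tm_D]
        exact Submodule.mem_span_pair.2 ⟨0, (a * d - 0 * 0) * (d * d * d), by module⟩
    · rcases hu with rfl | rfl
      · rw [tm_A]
        exact Submodule.mem_span_pair.2 ⟨0, (0 * 0 - b * c) * (c * c * c), by module⟩
      · rw [tm_D]
        exact Submodule.mem_span_pair.2 ⟨(0 * 0 - b * c) * (b * b * b), 0, by module⟩
  rw [eq_mkE g] at hg ⊢
  exact key _ _ _ _ _ hg

theorem BC_stable : Stable F (Pl F) (Mono F) (Submodule.span F {BB, CC}) := by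
  apply stable_span
  intro g hg u hu
  have key : ∀ (a b c d : F) (h : a * d - b * c ≠ 0), mkE a b c d h ∈ Mono F →
      tm a b c d h u ∈ Submodule.span F {BB, CC} := by
    intro a b c d h hm
    rw [mem_Mono] at hm
    rcases hm with ⟨rfl, rfl⟩ | ⟨rfl, rfl⟩
    · rcases hu with rfl | rfl
      · rw [tm_B]
        exact Submodule.mem_span_pair.2 ⟨(a * d - 0 * 0) * (d * a * a), 0, by module⟩
      · rw [tm_C]
        exact Submodule.mem_span_pair.2 ⟨0, (a * d - 0 * 0) * (a * d * d), by module⟩
    · rcases hu with rfl | rfl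
      · rw [tm_B]
        exact Submodule.mem_span_pair.2 ⟨0, (0 * 0 - b * c) * (b * c * c), by module⟩
      · rw [tm_C]
        exact Submodule.mem_span_pair.2 ⟨(0 * 0 - b * c) * (c * b * b), 0, by module⟩
  rw [eq_mkE g] at hg ⊢
  exact key _ _ _ _ _ hg

/-- the line spanned by `A + D` -/
theorem line_stable (h3 : ∀ a : F, a ≠ 0 → a * a * a = 1) :
    Stable F (Pl F) (Mono F) (Submodule.span F {AA + DD}) := by
  apply stable_span
  intro g hg u hu
  have key : ∀ (a b c d : F) (h : a * d - b * c ≠ 0), mkE a b c d h ∈ Mono F →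
      tm a b c d h u ∈ Submodule.span F {AA + DD} := by
    intro a b c d h hm
    rw [mem_Mono] at hm
    rcases hu with rfl
    rcases hm with ⟨rfl, rfl⟩ | ⟨rfl, rfl⟩
    · have ha : a ≠ 0 := by rintro rfl; simp at h
      have hd : d ≠ 0 := by rintro rfl; simp at h
      rw [tm_add, tm_A, tm_D, h3 a ha, h3 d hd]
      exact Submodule.mem_span_singleton.2 ⟨a * d - 0 * 0, by module⟩
    · have hb : b ≠ 0 := by rintro rfl; simp at h
      have hc : c ≠ 0 := by rintro rfl; simp at h
      rw [tm_add, tm_A, tm_D, h3 b hb, h3 c hc]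
      exact Submodule.mem_span_singleton.2 ⟨0 * 0 - b * c, by module⟩
  rw [eq_mkE g] at hg ⊢
  exact key _ _ _ _ _ hg

theorem St_not_irr : ¬ IrrSub F (Pl F) (Mono F) (St : Submodule F (TensorAlgebra F (Pl F))) := by
  intro h
  have hle : Submodule.span F {AA, DD} ≤ (St : Submodule F (TensorAlgebra F (Pl F))) := by
    rw [Submodule.span_le]
    rintro z (rfl | rfl)
    · exact Submodule.subset_span (by simp)
    · exact Submodule.subset_span (by simp)
  rcases h.2.2 _ hle (AD_stable hω) with h1 | h1
  · have : AA ∈ Submodule.span F {(AA : TensorAlgebra F (Pl F)), DD} :=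
      Submodule.subset_span (by simp)
    rw [h1] at this
    exact AA_ne ((Submodule.mem_bot F).1 this)
  · apply BB_not_mem (F := F)
    rw [h1]
    exact Submodule.subset_span (by simp)

theorem L5_not_uniserial (h3 : ∀ a : F, a ≠ 0 → a * a * a = 1) :
    ¬ Uniserial F (Pl F) (Mono F) (liePow F (Pl F) 5) := by
  intro h
  have h1 : Submodule.span F {(AA + DD : TensorAlgebra F (Pl F))} ≤ liePow F (Pl F) 5 := by
    rw [Submodule.span_singleton_le_iff_mem]
    exact add_mem AA_mem DD_mem
  have h2 : Submodule.span F {(BB : TensorAlgebra F (Pl F)), CC} ≤ liePow F (Pl F) 5 := by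
    rw [Submodule.span_le]
    rintro z (rfl | rfl)
    · exact BB_mem
    · exact CC_mem
  rcases h _ _ h1 h2 (line_stable hω h3) (BC_stable hω) with h4 | h4
  · exact AD_not_mem (h4 (Submodule.mem_span_singleton_self _))
  · exact BB_not_mem' (h4 (Submodule.subset_span (by simp)))

theorem L5_not_complRed (h3 : ∀ a : F, a ≠ 0 → a * a * a = 1) :
    ¬ ComplRed F (Pl F) (Mono F) (liePow F (Pl F) 5) := by
  intro h
  have hsw : (0 : F) * 0 - 1 * 1 ≠ 0 := by simp
  have h2 : (1 : F) + 1 = 0 := CharTwo.add_self_eq_zero 1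
  obtain ⟨C, hC, hCU, hC0, hCS⟩ := exists_compl h _ (line_stable hω h3)
  obtain ⟨p, hp, q, hq, hpq⟩ := Submodule.mem_sup.1 (hCS (AA_mem (F := F)))
  obtain ⟨r, hr⟩ := Submodule.mem_span_singleton.1 hq
  -- `p = A - r (A + D)` and its image under the swap
  have hp1 : p = AA - r • (AA + DD) := by rw [hr, ← hpq]; abel
  have hp2 := stable_sw hC hsw hp
  have hp3 : tm 0 1 1 0 hsw p = DD - r • (AA + DD) := by
    have : p = (1 - r) • AA + (-r) • DD := by rw [hp1]; module
    rw [this, tm_add, tm_smul, tm_smul, tm_A, tm_D, sw_det hω]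
    module
  have h5 : AA + DD ∈ C := by
    have h6 := add_mem hp hp2
    rw [hp3, hp1] at h6
    convert h6 using 1
    match_scalars
    · linear_combination r * h2
    · linear_combination r * h2
  have h6 : (AA + DD : TensorAlgebra F (Pl F)) ∈ C ⊓ Submodule.span F {AA + DD} :=
    ⟨h5, Submodule.mem_span_singleton_self _⟩
  rw [hC0] at h6
  exact AD_ne ((Submodule.mem_bot F).1 h6)

theorem star_five : Star F (Pl F) (Mono F) 5 := by
  intro k hk1 hk2 U hU h
  have : k = 1 ∨ k = 2 ∨ k = 3 ∨ k = 4 := by omega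
  rcases this with rfl | rfl | rfl | rfl
  · exact case1 hω U hU h
  · exact case2 hω U hU h
  · exact case3 hω U hU h
  · exact case4 hω U hU h

theorem not_star (m : ℕ) (hm : Star F (Pl F) (Mono F) m) : m ≤ 5 := by
  by_contra hlt
  exact St_not_irr hω (hm 5 (by norm_num) (by omega) St St_le (St_irr hω))

end

end gen

end Q2.LP
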