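import Pool.Agent.Q2.LP.Max
import Pool.Agent.Q2.LP.Defs

set_option autoImplicit false
set_option linter.unusedSectionVars false

/-!
# The fifth Lie power of the plane over the field of four elements
-/

namespace Q2.LP

open TensorAlgebra

section gen
variable {F : Type} [Field F]

theorem stable_span {K : Subgroup (Pl F ≃ₗ[F] Pl F)} {s : Set (TensorAlgebra F (Pl F))}
    (h : ∀ g ∈ K, ∀ u ∈ s, tmap F (Pl F) g u ∈ Submodule.span F s) :
    Stable F (Pl F) K (Submodule.span F s) := by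
  intro g hg u hu
  induction hu using Submodule.span_induction with
  | mem x hx => exact h g hg x hx
  | zero => rw [map_zero]; exact zero_mem _
  | add x y _ _ hx hy => rw [map_add]; exact add_mem hx hy
  | smul r x _ hx => rw [map_smul]; exact Submodule.smul_mem _ _ hx

/-- the generators -/
def xx : TensorAlgebra F (Pl F) := ι F e0
/-- the generators -/
def yy : TensorAlgebra F (Pl F) := ι F e1

/-- bracket with `x` -/
def fX (u : TensorAlgebra F (Pl F)) : TensorAlgebra F (Pl F) := adr xx u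
/-- bracket with `y` -/
def fY (u : TensorAlgebra F (Pl F)) : TensorAlgebra F (Pl F) := adr yy u

/-- the commutator of the generators -/
def cc : TensorAlgebra F (Pl F) := fY xx

theorem ι_pl (v : Pl F) : ι F v = v 0 • (xx : TensorAlgebra F (Pl F)) + v 1 • yy := by
  unfold xx yy
  rw [← map_smul, ← map_smul, ← map_add]
  congr 1
  ext i; fin_cases i <;> simp [e0, e1]

theorem fX_eq (u : TensorAlgebra F (Pl F)) : fX u = u * xx - xx * u := rfl
theorem fY_eq (u : TensorAlgebra F (Pl F)) : fY u = u * yy - yy * u := rfl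

theorem fX_add (u v : TensorAlgebra F (Pl F)) : fX (u + v) = fX u + fX v := map_add _ _ _
theorem fY_add (u v : TensorAlgebra F (Pl F)) : fY (u + v) = fY u + fY v := map_add _ _ _
theorem fX_smul (r : F) (v : TensorAlgebra F (Pl F)) : fX (r • v) = r • fX v := map_smul _ _ _
theorem fY_smul (r : F) (v : TensorAlgebra F (Pl F)) : fY (r • v) = r • fY v := map_smul _ _ _

theorem adr_lin (a b : F) (u : TensorAlgebra F (Pl F)) :
    adr (a • xx + b • yy) u = a • fX u + b • fY u := by
  rw [adr_add, adr_smul, adr_smul]; rfl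

theorem adr_ι (v : Pl F) (u : TensorAlgebra F (Pl F)) :
    adr (ι F v) u = v 0 • fX u + v 1 • fY u := by
  rw [ι_pl, adr_lin]

theorem fX_xx : fX (xx : TensorAlgebra F (Pl F)) = 0 := by
  rw [fX_eq]; noncomm_ring

theorem fY_yy : fY (yy : TensorAlgebra F (Pl F)) = 0 := by
  rw [fY_eq]; noncomm_ring

theorem fX_yy : fX (yy : TensorAlgebra F (Pl F)) = -cc := by
  unfold cc
  rw [fX_eq, fY_eq]; noncomm_ring

theorem f_comm : fY (fX (cc : TensorAlgebra F (Pl F))) = fX (fY cc) := by
  unfold cc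
  simp only [fX_eq, fY_eq]; noncomm_ring

/-- the action of a matrix -/
def tm (a b c d : F) (h : a * d - b * c ≠ 0) (u : TensorAlgebra F (Pl F)) :
    TensorAlgebra F (Pl F) := tmap F (Pl F) (mkE a b c d h) u

section tm
variable (a b c d : F) (h : a * d - b * c ≠ 0)

theorem tm_add (u v : TensorAlgebra F (Pl F)) : tm a b c d h (u + v) = tm a b c d h u + tm a b c d h v :=
  map_add _ _ _
theorem tm_smul (r : F) (u : TensorAlgebra F (Pl F)) : tm a b c d h (r • u) = r • tm a b c d h u :=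
  map_smul _ _ _

theorem tm_x : tm a b c d h xx = a • xx + c • yy := by
  unfold xx tm
  rw [tmap_ι, ι_pl, mkE_apply]
  simp [e0, xx]

theorem tm_y : tm a b c d h yy = b • xx + d • yy := by
  unfold yy tm
  rw [tmap_ι, ι_pl, mkE_apply]
  simp [e1, yy]

theorem tm_fX (u : TensorAlgebra F (Pl F)) : tm a b c d h (fX u) =
    a • fX (tm a b c d h u) + c • fY (tm a b c d h u) := by
  have h1 : tm a b c d h (fX u) = adr (tm a b c d h xx) (tm a b c d h u) := tmap_adr _ _ _
  rw [h1, tm_x, adr_lin]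

theorem tm_fY (u : TensorAlgebra F (Pl F)) : tm a b c d h (fY u) =
    b • fX (tm a b c d h u) + d • fY (tm a b c d h u) := by
  have h1 : tm a b c d h (fY u) = adr (tm a b c d h yy) (tm a b c d h u) := tmap_adr _ _ _
  rw [h1, tm_y, adr_lin]

theorem tm_c : tm a b c d h cc = (a * d - b * c) • cc := by
  unfold cc
  rw [tm_fY, tm_x, fX_add, fY_add, fX_smul, fX_smul, fY_smul, fY_smul,
    fX_xx, fY_yy, fX_yy]
  unfold cc
  generalize (fY xx : TensorAlgebra F (Pl F)) = P
  module

theorem tm_xc : tm a b c d h (fX cc) = (a * d - b * c) • (a • fX cc + c • fY cc) := by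
  rw [tm_fX, tm_c, fX_smul, fY_smul]
  generalize (fX cc : TensorAlgebra F (Pl F)) = P
  generalize (fY cc : TensorAlgebra F (Pl F)) = Q
  module

theorem tm_yc : tm a b c d h (fY cc) = (a * d - b * c) • (b • fX cc + d • fY cc) := by
  rw [tm_fY, tm_c, fX_smul, fY_smul]
  generalize (fX cc : TensorAlgebra F (Pl F)) = P
  generalize (fY cc : TensorAlgebra F (Pl F)) = Q
  module

/-- `[c,x,x]` -/
def P4 : TensorAlgebra F (Pl F) := fX (fX cc)
/-- `[c,y,x]` -/
def Q4 : TensorAlgebra F (Pl F) := fX (fY cc)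
/-- `[c,y,y]` -/
def R4 : TensorAlgebra F (Pl F) := fY (fY cc)
/-- `[c,x,x,x]` -/
def AA : TensorAlgebra F (Pl F) := fX P4
/-- `[c,x,x,y]` -/
def BB : TensorAlgebra F (Pl F) := fY P4
/-- `[c,y,y,x]` -/
def CC : TensorAlgebra F (Pl F) := fX R4
/-- `[c,y,y,y]` -/
def DD : TensorAlgebra F (Pl F) := fY R4

theorem tm_Q4 : tm a b c d h Q4 =
    (a * d - b * c) • ((a * b) • P4 + (a * d + b * c) • Q4 + (c * d) • R4) := by
  unfold Q4
  rw [tm_fX, tm_yc]
  simp only [fX_smul, fY_smul, fX_add, fY_add]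
  rw [f_comm]
  change _ = (a * d - b * c) • ((a * b) • P4 + (a * d + b * c) • Q4 + (c * d) • R4)
  change a • (a * d - b * c) • (b • P4 + d • Q4) + c • (a * d - b * c) • (b • Q4 + d • R4) = _
  generalize (P4 : TensorAlgebra F (Pl F)) = P
  generalize (Q4 : TensorAlgebra F (Pl F)) = Q
  generalize (R4 : TensorAlgebra F (Pl F)) = R
  module

variable [CharP F 2]

theorem tm_P4 : tm a b c d h P4 = (a * d - b * c) • ((a * a) • P4 + (c * c) • R4) := by
  have h2 : (1 : F) + 1 = 0 := CharTwo.add_self_eq_zero 1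
  unfold P4
  rw [tm_fX, tm_xc]
  simp only [fX_smul, fY_smul, fX_add, fY_add]
  rw [f_comm]
  change a • (a * d - b * c) • (a • P4 + c • Q4) + c • (a * d - b * c) • (a • Q4 + c • R4) =
    (a * d - b * c) • ((a * a) • P4 + (c * c) • R4)
  generalize (P4 : TensorAlgebra F (Pl F)) = P
  generalize (Q4 : TensorAlgebra F (Pl F)) = Q
  generalize (R4 : TensorAlgebra F (Pl F)) = R
  match_scalars
  · ring
  · linear_combination (a * d - b * c) * a * c * h2
  · ring

theorem tm_R4 : tm a b c d h R4 = (a * d - b * c) • ((b * b) • P4 + (d * d) • R4) := by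
  have h2 : (1 : F) + 1 = 0 := CharTwo.add_self_eq_zero 1
  unfold R4
  rw [tm_fY, tm_yc]
  simp only [fX_smul, fY_smul, fX_add, fY_add]
  rw [f_comm]
  change b • (a * d - b * c) • (b • P4 + d • Q4) + d • (a * d - b * c) • (b • Q4 + d • R4) =
    (a * d - b * c) • ((b * b) • P4 + (d * d) • R4)
  generalize (P4 : TensorAlgebra F (Pl F)) = P
  generalize (Q4 : TensorAlgebra F (Pl F)) = Q
  generalize (R4 : TensorAlgebra F (Pl F)) = R
  match_scalars
  · ring
  · linear_combination (a * d - b * c) * b * d * h2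
  · ring

theorem tm_A : tm a b c d h AA = (a * d - b * c) • ((a * a * a) • AA + (a * a * c) • BB +
    (a * c * c) • CC + (c * c * c) • DD) := by
  unfold AA
  rw [tm_fX, tm_P4]
  simp only [fX_smul, fY_smul, fX_add, fY_add]
  unfold BB CC DD
  generalize (fX P4 : TensorAlgebra F (Pl F)) = P
  generalize (fY P4 : TensorAlgebra F (Pl F)) = Q
  generalize (fX R4 : TensorAlgebra F (Pl F)) = R
  generalize (fY R4 : TensorAlgebra F (Pl F)) = S
  module

theorem tm_B : tm a b c d h BB = (a * d - b * c) • ((b * a * a) • AA + (d * a * a) • BB +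
    (b * c * c) • CC + (d * c * c) • DD) := by
  unfold BB
  rw [tm_fY, tm_P4]
  simp only [fX_smul, fY_smul, fX_add, fY_add]
  unfold AA CC DD
  generalize (fX P4 : TensorAlgebra F (Pl F)) = P
  generalize (fY P4 : TensorAlgebra F (Pl F)) = Q
  generalize (fX R4 : TensorAlgebra F (Pl F)) = R
  generalize (fY R4 : TensorAlgebra F (Pl F)) = S
  module

theorem tm_C : tm a b c d h CC = (a * d - b * c) • ((a * b * b) • AA + (c * b * b) • BB +
    (a * d * d) • CC + (c * d * d) • DD) := by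
  unfold CC
  rw [tm_fX, tm_R4]
  simp only [fX_smul, fY_smul, fX_add, fY_add]
  unfold AA BB DD
  generalize (fX P4 : TensorAlgebra F (Pl F)) = P
  generalize (fY P4 : TensorAlgebra F (Pl F)) = Q
  generalize (fX R4 : TensorAlgebra F (Pl F)) = R
  generalize (fY R4 : TensorAlgebra F (Pl F)) = S
  module

theorem tm_D : tm a b c d h DD = (a * d - b * c) • ((b * b * b) • AA + (b * b * d) • BB +
    (b * d * d) • CC + (d * d * d) • DD) := by
  unfold DD
  rw [tm_fY, tm_R4]
  simp only [fX_smul, fY_smul, fX_add, fY_add]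
  unfold AA BB CC
  generalize (fX P4 : TensorAlgebra F (Pl F)) = P
  generalize (fY P4 : TensorAlgebra F (Pl F)) = Q
  generalize (fX R4 : TensorAlgebra F (Pl F)) = R
  generalize (fY R4 : TensorAlgebra F (Pl F)) = S
  module

end tm

/-- stability under the monomial group -/
theorem stable_mono {U : Submodule F (TensorAlgebra F (Pl F))}
    (h1 : ∀ (a d : F) (h : a * d - 0 * 0 ≠ 0), a ≠ 0 → d ≠ 0 → ∀ u ∈ U, tm a 0 0 d h u ∈ U)
    (h2 : ∀ (b c : F) (h : 0 * 0 - b * c ≠ 0), b ≠ 0 → c ≠ 0 → ∀ u ∈ U, tm 0 b c 0 h u ∈ U) :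
    Stable F (Pl F) (Mono F) U := by
  intro g hg u hu
  have key : ∀ (a b c d : F) (h : a * d - b * c ≠ 0), mkE a b c d h ∈ Mono F →
      tm a b c d h u ∈ U := by
    intro a b c d h hm
    rw [mem_Mono] at hm
    rcases hm with ⟨rfl, rfl⟩ | ⟨rfl, rfl⟩
    · exact h1 a d h (by rintro rfl; simp at h) (by rintro rfl; simp at h) u hu
    · exact h2 b c h (by rintro rfl; simp at h) (by rintro rfl; simp at h) u hu
  rw [eq_mkE g] at hg ⊢
  exact key _ _ _ _ _ hg

/-- stability under everything -/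
theorem stable_top {U : Submodule F (TensorAlgebra F (Pl F))}
    (h1 : ∀ (a b c d : F) (h : a * d - b * c ≠ 0), ∀ u ∈ U, tm a b c d h u ∈ U) :
    Stable F (Pl F) ⊤ U := by
  intro g _ u hu
  rw [eq_mkE g]
  exact h1 _ _ _ _ _ u hu

theorem stable_tm {U : Submodule F (TensorAlgebra F (Pl F))} (hU : Stable F (Pl F) (Mono F) U)
    (a d : F) (h : a * d - 0 * 0 ≠ 0) {u : TensorAlgebra F (Pl F)} (hu : u ∈ U) :
    tm a 0 0 d h u ∈ U := hU _ ((mem_Mono _ _ _ _ _).2 (Or.inl ⟨rfl, rfl⟩)) u hu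

theorem stable_sw {U : Submodule F (TensorAlgebra F (Pl F))} (hU : Stable F (Pl F) (Mono F) U)
    (h : (0 : F) * 0 - 1 * 1 ≠ 0) {u : TensorAlgebra F (Pl F)} (hu : u ∈ U) :
    tm 0 1 1 0 h u ∈ U := hU _ ((mem_Mono _ _ _ _ _).2 (Or.inr ⟨rfl, rfl⟩)) u hu

end gen

end Q2.LP
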