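import Mathlib

set_option autoImplicit false
set_option linter.unusedSectionVars false

/-!
# The monomial subgroup of `GL_2(F)`, `F` of characteristic `2`, is maximal
-/

namespace Q2.LP

variable {F : Type} [Field F]

/-- the plane -/
abbrev Pl (F : Type) : Type := Fin 2 → F

/-- matrix to linear automorphism -/
def mkE (a b c d : F) (h : a * d - b * c ≠ 0) : Pl F ≃ₗ[F] Pl F where
  toFun v := ![a * v 0 + b * v 1, c * v 0 + d * v 1]
  map_add' u v := by
    ext i; fin_cases i <;> simp <;> ring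
  map_smul' r v := by
    ext i; fin_cases i <;> simp <;> ring
  invFun v := ![(d * v 0 - b * v 1) / (a * d - b * c), (a * v 1 - c * v 0) / (a * d - b * c)]
  left_inv v := by
    ext i; fin_cases i
    · simp only [Matrix.cons_val_zero, Matrix.cons_val_one, Fin.zero_eta]
      rw [div_eq_iff h]; ring
    · simp only [Matrix.cons_val_zero, Matrix.cons_val_one, Fin.mk_one]
      rw [div_eq_iff h]; ring
  right_inv v := by
    ext i; fin_cases i
    · simp only [Matrix.cons_val_zero, Matrix.cons_val_one, Fin.zero_eta]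
      rw [← mul_div_assoc, ← mul_div_assoc, ← add_div, div_eq_iff h]; ring
    · simp only [Matrix.cons_val_zero, Matrix.cons_val_one, Fin.mk_one]
      rw [← mul_div_assoc, ← mul_div_assoc, ← add_div, div_eq_iff h]; ring

/-- first basis vector -/
def e0 : Pl F := ![1, 0]
/-- second basis vector -/
def e1 : Pl F := ![0, 1]

theorem mkE_apply (a b c d : F) (h : a * d - b * c ≠ 0) (v : Pl F) :
    mkE a b c d h v = ![a * v 0 + b * v 1, c * v 0 + d * v 1] := rfl

theorem lin_eq (g : Pl F ≃ₗ[F] Pl F) (v : Pl F) : g v = v 0 • g e0 + v 1 • g e1 := by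
  rw [← map_smul, ← map_smul, ← map_add]
  congr 1
  ext i; fin_cases i <;> simp [e0, e1]

theorem det_ne (g : Pl F ≃ₗ[F] Pl F) : g e0 0 * g e1 1 - g e1 0 * g e0 1 ≠ 0 := by
  intro h
  have h1 : g ![g e1 1, -g e0 1] = 0 := by
    rw [lin_eq]
    ext i; fin_cases i
    · simp; linear_combination h
    · simp; ring
  have h2 : g ![g e1 0, -g e0 0] = 0 := by
    rw [lin_eq]
    ext i; fin_cases i
    · simp; ring
    · simp; linear_combination -h
  have h3 := (LinearEquiv.map_eq_zero_iff g).1 h1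
  have h4 := (LinearEquiv.map_eq_zero_iff g).1 h2
  have h5 : g e0 = 0 := by
    ext i; fin_cases i
    · have := congrFun h4 1
      simpa using this
    · have := congrFun h3 1
      simpa using this
  have h6 := (LinearEquiv.map_eq_zero_iff g).1 h5
  have := congrFun h6 0
  simp [e0] at this

theorem eq_mkE (g : Pl F ≃ₗ[F] Pl F) : g = mkE (g e0 0) (g e1 0) (g e0 1) (g e1 1) (det_ne g) := by
  apply LinearEquiv.ext
  intro v
  rw [lin_eq, mkE_apply]
  ext i; fin_cases i <;> simp <;> ring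

theorem mkE_mul (a b c d : F) (h : a * d - b * c ≠ 0) (a' b' c' d' : F)
    (h' : a' * d' - b' * c' ≠ 0) : mkE a b c d h * mkE a' b' c' d' h' =
    mkE (a * a' + b * c') (a * b' + b * d') (c * a' + d * c') (c * b' + d * d')
      (by
        have : (a * a' + b * c') * (c * b' + d * d') - (a * b' + b * d') * (c * a' + d * c') =
          (a * d - b * c) * (a' * d' - b' * c') := by ring
        rw [this]; exact mul_ne_zero h h') := by
  apply LinearEquiv.ext
  intro v
  rw [LinearEquiv.mul_apply]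
  ext i; fin_cases i
  · simp only [mkE_apply, Matrix.cons_val_zero, Matrix.cons_val_one, Fin.zero_eta]; ring
  · simp only [mkE_apply, Matrix.cons_val_zero, Matrix.cons_val_one, Fin.mk_one]; ring

theorem mkE_congr {a b c d a' b' c' d' : F} {h : a * d - b * c ≠ 0} {h' : a' * d' - b' * c' ≠ 0}
    (h1 : a = a') (h2 : b = b') (h3 : c = c') (h4 : d = d') : mkE a b c d h = mkE a' b' c' d' h' := by
  subst h1 h2 h3 h4; rfl

/-- The group of monomial matrices: all `g` which permute the two coordinate lines. -/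
def Mono (F : Type) [Field F] : Subgroup (Pl F ≃ₗ[F] Pl F) where
  carrier := {g | (g e0 1 = 0 ∧ g e1 0 = 0) ∨ (g e0 0 = 0 ∧ g e1 1 = 0)}
  one_mem' := by left; simp [e0, e1]
  mul_mem' := by
    intro g h hg hh
    have k0 : (g * h) e0 = h e0 0 • g e0 + h e0 1 • g e1 := by
      rw [LinearEquiv.mul_apply, lin_eq g]
    have k1 : (g * h) e1 = h e1 0 • g e0 + h e1 1 • g e1 := by
      rw [LinearEquiv.mul_apply, lin_eq g]
    simp only [Set.mem_ofPred_eq, k0, k1, Pi.add_apply, Pi.smul_apply, smul_eq_mul]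
    rcases hg with ⟨h1, h2⟩ | ⟨h1, h2⟩ <;> rcases hh with ⟨h3, h4⟩ | ⟨h3, h4⟩ <;>
      simp [h1, h2, h3, h4]
  inv_mem' := by
    intro g hg
    have k0 : e0 = (g⁻¹ e0) 0 • g e0 + (g⁻¹ e0) 1 • g e1 := by
      rw [← lin_eq g, ← LinearEquiv.mul_apply, mul_inv_cancel]; rfl
    have k1 : e1 = (g⁻¹ e1) 0 • g e0 + (g⁻¹ e1) 1 • g e1 := by
      rw [← lin_eq g, ← LinearEquiv.mul_apply, mul_inv_cancel]; rfl
    have hd := det_ne g
    have a0 := congrFun k0 0
    have a1 := congrFun k0 1
    have b0 := congrFun k1 0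
    have b1 := congrFun k1 1
    simp only [e0, e1, Pi.add_apply, Pi.smul_apply, smul_eq_mul, Matrix.cons_val_zero,
      Matrix.cons_val_one] at a0 a1 b0 b1
    rcases hg with ⟨h1, h2⟩ | ⟨h1, h2⟩
    · simp only [e0, e1] at h1 h2 hd
      rw [h1, h2, zero_mul, sub_zero] at hd
      rw [h1] at a1
      rw [h2] at b0
      left
      constructor
      · have : (g⁻¹ ![1, 0]) 1 * g ![0, 1] 1 = 0 := by linear_combination -a1
        exact (mul_eq_zero.1 this).resolve_right (right_ne_zero_of_mul hd)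
      · have : (g⁻¹ ![0, 1]) 0 * g ![1, 0] 0 = 0 := by linear_combination -b0
        exact (mul_eq_zero.1 this).resolve_right (left_ne_zero_of_mul hd)
    · simp only [e0, e1] at h1 h2 hd
      rw [h1, zero_mul, zero_sub] at hd
      have hd' := neg_ne_zero.1 hd
      rw [h1] at a0
      rw [h2] at b1
      right
      constructor
      · have : (g⁻¹ ![1, 0]) 0 * g ![1, 0] 1 = 0 := by rw [h2] at a1; linear_combination -a1
        exact (mul_eq_zero.1 this).resolve_right (right_ne_zero_of_mul hd')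
      · have : (g⁻¹ ![0, 1]) 1 * g ![0, 1] 0 = 0 := by rw [h1] at b0; linear_combination -b0
        exact (mul_eq_zero.1 this).resolve_right (left_ne_zero_of_mul hd')

theorem mem_Mono (a b c d : F) (h : a * d - b * c ≠ 0) :
    mkE a b c d h ∈ Mono F ↔ (c = 0 ∧ b = 0) ∨ (a = 0 ∧ d = 0) := by
  change ((mkE a b c d h e0) 1 = 0 ∧ (mkE a b c d h e1) 0 = 0) ∨
    ((mkE a b c d h e0) 0 = 0 ∧ (mkE a b c d h e1) 1 = 0) ↔ _
  simp [mkE_apply, e0, e1]

section max
variable (K : Subgroup (Pl F ≃ₗ[F] Pl F)) (hK : Mono F ≤ K)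

include hK

theorem dg_mem (a d : F) (h : a * d - 0 * 0 ≠ 0) : mkE a 0 0 d h ∈ K :=
  hK ((mem_Mono _ _ _ _ _).2 (Or.inl ⟨rfl, rfl⟩))

theorem sw_mem (h : (0 : F) * 0 - 1 * 1 ≠ 0) : mkE 0 1 1 0 h ∈ K :=
  hK ((mem_Mono _ _ _ _ _).2 (Or.inr ⟨rfl, rfl⟩))

/-- If `K` contains a transvection then it is everything. -/
theorem top_of_tv (ht : mkE 1 1 0 1 (by simp) ∈ K) : K = ⊤ := by
  have hsw : (0 : F) * 0 - 1 * 1 ≠ 0 := by simp
  -- upper
  have hup : ∀ (t : F) (h : (1 : F) * 1 - t * 0 ≠ 0), mkE 1 t 0 1 h ∈ K := by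
    intro t h
    by_cases h0 : t = 0
    · subst h0
      exact dg_mem K hK 1 1 _
    · have h1 : t * 1 - 0 * 0 ≠ 0 := by simpa using h0
      have h2 : t⁻¹ * 1 - 0 * 0 ≠ 0 := by simpa using h0
      have h3 := K.mul_mem (K.mul_mem (dg_mem K hK t 1 h1) ht) (dg_mem K hK t⁻¹ 1 h2)
      rw [mkE_mul, mkE_mul] at h3
      convert h3 using 1
      apply mkE_congr <;> simp [h0]
  have hlow : ∀ (t : F) (h : (1 : F) * 1 - 0 * t ≠ 0), mkE 1 0 t 1 h ∈ K := by
    intro t h
    have h3 := K.mul_mem (K.mul_mem (sw_mem K hK hsw) (hup t (by simp))) (sw_mem K hK hsw)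
    rw [mkE_mul, mkE_mul] at h3
    convert h3 using 1
    apply mkE_congr <;> simp
  have hall : ∀ (a b c d : F) (h : a * d - b * c ≠ 0), a ≠ 0 → mkE a b c d h ∈ K := by
    intro a b c d h ha
    have h1 : a * (d - b * c / a) - 0 * 0 ≠ 0 := by
      have : a * (d - b * c / a) - 0 * 0 = a * d - b * c := by field_simp; ring
      rw [this]; exact h
    have h3 := K.mul_mem (K.mul_mem (hlow (c / a) (by simp)) (dg_mem K hK a (d - b * c / a) h1))
      (hup (b / a) (by simp))
    rw [mkE_mul, mkE_mul] at h3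
    convert h3 using 1
    apply mkE_congr
    · simp
    · field_simp; ring
    · field_simp; ring
    · field_simp; ring
  rw [eq_top_iff]
  intro g _
  rw [eq_mkE g]
  by_cases ha : g e0 0 = 0
  · have hc : g e0 1 ≠ 0 := by
      intro hc
      have := det_ne g
      rw [ha, hc] at this
      simp at this
    have h1 : g e0 1 * g e1 0 - g e1 1 * g e0 0 ≠ 0 := by
      have := det_ne g
      intro h2
      apply this
      linear_combination -h2
    have h3 := K.mul_mem (sw_mem K hK hsw) (hall (g e0 1) (g e1 1) (g e0 0) (g e1 0) h1 hc)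
    rw [mkE_mul] at h3
    convert h3 using 1
    apply mkE_congr <;> simp
  · exact hall _ _ _ _ _ ha

theorem top_of_one_zero (a b d : F) (h : a * d - b * 0 ≠ 0) (hb : b ≠ 0) (hm : mkE a b 0 d h ∈ K) :
    K = ⊤ := by
  apply top_of_tv K hK
  have ha : a ≠ 0 := by rintro rfl; simp at h
  have hd : d ≠ 0 := by rintro rfl; simp at h
  have h1 : b⁻¹ * d⁻¹ - 0 * 0 ≠ 0 := by simp [hb, hd]
  have h2 : (b / a) * 1 - 0 * 0 ≠ 0 := by simp [hb, ha]
  have h3 := K.mul_mem (K.mul_mem (dg_mem K hK b⁻¹ d⁻¹ h1) hm) (dg_mem K hK (b / a) 1 h2)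
  rw [mkE_mul, mkE_mul] at h3
  convert h3 using 1
  apply mkE_congr
  · field_simp; ring
  · field_simp; ring
  · simp
  · field_simp; ring

theorem top_of_entries [CharP F 2] (a b c d : F) (hdet : a * d - b * c ≠ 0)
    (hg : mkE a b c d hdet ∈ K) (hgM : ¬ ((c = 0 ∧ b = 0) ∨ (a = 0 ∧ d = 0))) :
    K = ⊤ := by
  have hsw : (0 : F) * 0 - 1 * 1 ≠ 0 := by simp
  -- a matrix in K with exactly one zero entry gives everything
  have swl : ∀ (a b c d : F) (h : a * d - b * c ≠ 0) (h' : c * b - d * a ≠ 0),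
      mkE a b c d h ∈ K → mkE c d a b h' ∈ K := by
    intro a b c d h h' hm
    have h3 := K.mul_mem (sw_mem K hK hsw) hm
    rw [mkE_mul] at h3
    convert h3 using 1
    apply mkE_congr <;> simp
  have swr : ∀ (a b c d : F) (h : a * d - b * c ≠ 0) (h' : b * c - a * d ≠ 0),
      mkE a b c d h ∈ K → mkE b a d c h' ∈ K := by
    intro a b c d h h' hm
    have h3 := K.mul_mem hm (sw_mem K hK hsw)
    rw [mkE_mul] at h3
    convert h3 using 1
    apply mkE_congr <;> simp
  -- zero in position a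
  have hza : ∀ (b c d : F) (h : 0 * d - b * c ≠ 0), d ≠ 0 → mkE 0 b c d h ∈ K → K = ⊤ := by
    intro b c d h hd hm
    have h' : c * b - d * 0 ≠ 0 := by intro h2; apply h; linear_combination -h2
    exact top_of_one_zero K hK c d b h' hd (swl _ _ _ _ h h' hm)
  push Not at hgM
  by_cases ha : a = 0
  · subst ha
    exact hza b c d hdet (hgM.2 rfl) hg
  by_cases hc : c = 0
  · subst hc
    exact top_of_one_zero K hK a b d hdet (hgM.1 rfl) hg
  by_cases hd : d = 0
  · subst hd
    have h' : b * c - a * 0 ≠ 0 := by intro h2; apply hdet; linear_combination -h2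
    have h3 := swr _ _ _ _ hdet h' hg
    have h'' : 0 * a - c * b ≠ 0 := by intro h2; apply hdet; linear_combination h2
    have h4 := swl _ _ _ _ h' h'' h3
    exact hza c b a h'' ha h4
  by_cases hb : b = 0
  · subst hb
    have h' : c * 0 - d * a ≠ 0 := by intro h2; apply hdet; linear_combination -h2
    have h3 := swl _ _ _ _ hdet h' hg
    have h'' : d * a - c * 0 ≠ 0 := by intro h2; apply hdet; linear_combination h2
    have h4 := swr _ _ _ _ h' h'' h3
    exact top_of_one_zero K hK d c a h'' hc h4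
  -- no zero entries
  have h1 : 1 * (a / c) - 0 * 0 ≠ 0 := by simp [ha, hc]
  have h2 : a⁻¹ * b⁻¹ - 0 * 0 ≠ 0 := by simp [ha, hb]
  have h3 := K.mul_mem (K.mul_mem (dg_mem K hK 1 (a / c) h1) hg) (dg_mem K hK a⁻¹ b⁻¹ h2)
  have he1 : a * d / (b * c) - 1 ≠ 0 := by
    intro h4
    apply hdet
    field_simp at h4
    linear_combination h4
  have h5 : 1 * (a * d / (b * c)) - 1 * 1 ≠ 0 := by simpa using he1
  have h6 : mkE 1 1 1 (a * d / (b * c)) h5 ∈ K := by
    rw [mkE_mul, mkE_mul] at h3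
    convert h3 using 1
    apply mkE_congr
    · field_simp; ring
    · field_simp; ring
    · field_simp; ring
    · field_simp; ring
  set e := a * d / (b * c) with he
  have h7 := K.mul_mem h6 h6
  rw [mkE_mul] at h7
  have h8 : (1 : F) + 1 = 0 := CharTwo.add_self_eq_zero 1
  have h9 : 0 * (1 + e * e) - (1 + e) * (1 + e) ≠ 0 := by
    have : 0 * (1 + e * e) - (1 + e) * (1 + e) = -((e - 1) * (e - 1)) := by
      linear_combination (-2 * e) * h8
    rw [this]
    exact neg_ne_zero.2 (mul_ne_zero he1 he1)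
  have h10 : mkE 0 (1 + e) (1 + e) (1 + e * e) h9 ∈ K := by
    convert h7 using 1
    apply mkE_congr
    · rw [mul_one]; exact h8.symm
    · ring
    · ring
    · ring
  refine hza _ _ _ h9 ?_ h10
  have : 1 + e * e = (e - 1) * (e - 1) := by linear_combination e * h8
  rw [this]
  exact mul_ne_zero he1 he1

theorem top_of_not_mem [CharP F 2] (g : Pl F ≃ₗ[F] Pl F) (hg : g ∈ K) (hgM : g ∉ Mono F) :
    K = ⊤ := by
  rw [eq_mkE g] at hg hgM
  rw [mem_Mono] at hgM
  exact top_of_entries K hK _ _ _ _ _ hg hgM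

end max

theorem Mono_coatom [CharP F 2] : IsCoatom (Mono F) := by
  constructor
  · intro h
    have h1 : mkE 1 1 0 (1 : F) (by simp) ∈ Mono F := by rw [h]; trivial
    rw [mem_Mono] at h1
    simp at h1
  · intro K hK
    obtain ⟨g, hg, hgM⟩ := Set.exists_of_ssubset hK
    exact top_of_not_mem K hK.le g hg hgM

end Q2.LP
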